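import Pool.Agent.P8H99.GO.Stm

/-! Project OD, package PTH: `wt g` is the sum of the products of the sizes of neighbouring fibres. -/

set_option autoImplicit false

namespace Pool.Agent.P8H68.OD

open Finset
open Pool.Agent.P8H99.GO (path wt S_PTH)

lemma path_ofFn (k : ℕ) : ∀ S : ℕ → ℕ,
    path (List.ofFn fun i : Fin k => S i) = ∑ i ∈ range (k - 1), S i * S (i + 1) := by
  induction k with
  | zero => intro S; simp [path]
  | succ k ih =>
    intro S
    rcases k with _ | k
    · simp [path]
    · have h1 : (List.ofFn fun i : Fin (k + 1 + 1) => S i) =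
          S 0 :: S 1 :: List.ofFn fun i : Fin k => S (i + 2) := by
        rw [List.ofFn_succ, List.ofFn_succ]
        rfl
      have h2 : (List.ofFn fun i : Fin (k + 1) => S (i + 1)) =
          S 1 :: List.ofFn fun i : Fin k => S (i + 2) := by
        rw [List.ofFn_succ]
        rfl
      have h3 := ih fun i => S (i + 1)
      rw [h1, path, ← h2, h3]
      have h4 : k + 1 + 1 - 1 = k + 1 := by omega
      rw [h4, Nat.add_sub_cancel, Finset.sum_range_succ']
      simp only [Nat.zero_add]
      omega

lemma wt_eq {k n : ℕ} (g : Fin n → Fin k) :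
    wt g = ∑ i ∈ range (k - 1), ((univ : Finset (Fin n)).filter fun p => (g p : ℕ) = i).card *
      ((univ : Finset (Fin n)).filter fun p => (g p : ℕ) = i + 1).card := by
  unfold wt
  rw [Finset.card_eq_sum_card_fiberwise (f := fun q : Fin n × Fin n => (g q.1 : ℕ))
    (t := range (k - 1))]
  · refine Finset.sum_congr rfl fun i _ => ?_
    rw [← Finset.card_product]
    refine Finset.card_bij (fun q _ => q) ?_ ?_ ?_
    · rintro ⟨p, q⟩ hq
      simp only [mem_filter, mem_univ, true_and] at hq
      simp only [mem_product, mem_filter, mem_univ, true_and]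
      omega
    · intro a _ b _ h
      exact h
    · rintro ⟨p, q⟩ hq
      simp only [mem_product, mem_filter, mem_univ, true_and] at hq
      refine ⟨(p, q), ?_, rfl⟩
      simp only [mem_filter, mem_univ, true_and]
      omega
  · rintro ⟨p, q⟩ hq
    have h1 := (Finset.mem_filter.1 (Finset.mem_coe.1 hq)).2
    simp only at h1
    have h2 := (g q).2
    refine Finset.mem_coe.2 (Finset.mem_range.2 ?_)
    simp only
    omega

/-- package PTH -/
theorem pth : S_PTH := by
  intro k n g
  rw [wt_eq g, ← path_ofFn k fun i => ((univ : Finset (Fin n)).filter fun p => (g p : ℕ) = i).card]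
  refine congrArg path (congrArg List.ofFn ?_)
  funext i
  refine congrArg Finset.card (Finset.filter_congr fun p _ => ?_)
  rw [Fin.ext_iff]

end Pool.Agent.P8H68.OD
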